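import Mathlib
import Pool.Agent.H347K.Main
import Pool.Agent.H347K.Ring

/-! A union of relatively convex subgroups that is an infrainvariant (even normal) subgroup need not
be relatively convex. -/

set_option autoImplicit false

namespace Pool.Agent.Results.MP_fb8dd6_al.UnionNotConvex

open Pool.Agent.H347K

/-- There are an orderable group `G` and a family of relatively convex subgroups `F i` of `G` whose
union is an infrainvariant subgroup `H` of `G` that is not relatively convex. Moreover all `F i` and
`H` are normal in `G`. -/
theorem result : ∃ (G : Type) (_ : Group G) (ι : Type) (F : ι → Subgroup G) (H : Subgroup G),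
    Orderable G ∧ (∀ i, RelativelyConvex (F i)) ∧ (∀ i, (F i).Normal) ∧
    ((H : Set G) = ⋃ i, (F i : Set G)) ∧ H.Normal ∧ Infrainvariant H ∧
    ¬ RelativelyConvex H :=
  ⟨Kg RDD, inferInstance, main RDD⟩

end Pool.Agent.Results.MP_fb8dd6_al.UnionNotConvex
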